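import Mathlib
import Pool.Agent.Lib.helper14.Hausd

set_option autoImplicit false

namespace Pool.Agent.Results.MP_fbd0a7_an.Infinite

open Filter Topology Real Pool.Agent.Lib.H14Hausd
open scoped ENNReal Nat

/-- The Gauss–Weierstrass operator. -/
noncomputable def W (n : ℕ) (f : ℝ → ℝ) (x : ℝ) : ℝ :=
  √(n / π) * ∫ t, f t * exp (-n * (t - x) ^ 2)

/-- The Abel–Poisson operator. -/
noncomputable def P (ρ : ℝ) (f : ℝ → ℝ) (x : ℝ) : ℝ :=
  1 / (2 * π) * ∫ t in (-π)..π, f (x - t) * ((1 - ρ ^ 2) / (1 - 2 * ρ * cos t + ρ ^ 2))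

/-- The de la Vallée-Poussin operator. -/
noncomputable def V (n : ℕ) (f : ℝ → ℝ) (x : ℝ) : ℝ :=
  (n ! : ℝ) ^ 2 / (2 * π * (2 * n)!) * ∫ t in (-π)..π, f (x - t) * (2 * cos (t / 2)) ^ (2 * n)

/-- The constant for the Gauss–Weierstrass operator. -/
noncomputable def cW (α : ℝ) : ℝ≥0∞ := sSup {c | ∀ f, Adm f →
  limsup (fun n : ℕ => ENNReal.ofReal (α * √n) * hd α f (W n f)) atTop < c → Continuous f}

/-- The constant for the Abel–Poisson operator. -/
noncomputable def cP (α : ℝ) : ℝ≥0∞ := sSup {c | ∀ f, Adm f → Function.Periodic f (2 * π) →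
  limsup (fun ρ : ℝ => ENNReal.ofReal (α / (1 - ρ)) * hd α f (P ρ f)) (𝓝[<] 1) < c →
    Continuous f}

/-- The constant for the de la Vallée-Poussin operator. -/
noncomputable def cV (α : ℝ) : ℝ≥0∞ := sSup {c | ∀ f, Adm f → Function.Periodic f (2 * π) →
  limsup (fun n : ℕ => ENNReal.ofReal (α * √n) * hd α f (V n f)) atTop < c → Continuous f}

theorem result (α : ℝ) (hα : 0 < α) : cW α = ⊤ ∧ cP α = ⊤ ∧ cV α = ⊤ := by
  have hW : W = opW := by
    funext n f x
    rw [W, opW, ← MeasureTheory.integral_add_left_eq_self _ x]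
    simp
  have hP : P = opP := by
    funext ρ f x
    have := intervalIntegral.integral_comp_neg (a := -π) (b := π)
      fun s => f (x + s) * ((1 - ρ ^ 2) / (1 + ρ ^ 2 - 2 * ρ * cos s))
    rw [neg_neg] at this
    rw [P, opP, ← this]
    simp only [cos_neg, ← sub_eq_add_neg, sub_add_eq_add_sub]
  have hV : V = opV := by
    funext n f x
    have := intervalIntegral.integral_comp_neg (a := -π) (b := π)
      fun s => f (x + s) * (2 * cos (s / 2)) ^ (2 * n)
    rw [neg_neg] at this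
    rw [V, opV, ← this]
    simp only [neg_div, cos_neg, ← sub_eq_add_neg]
    ring
  refine ⟨top_unique <| le_sSup fun f hf h => contW hα hα hf (hW ▸ h),
    top_unique <| le_sSup fun f hf _ h => contP hα hα hf (hP ▸ h),
    top_unique <| le_sSup fun f hf _ h => contV hα hα hf (hV ▸ h)⟩

end Pool.Agent.Results.MP_fbd0a7_an.Infinite
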